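import Pool.Agent.H37.CND.Stmts

set_option autoImplicit false

namespace Pool.CND

open Polynomial

theorem emb_pow {k : Type} [Field k] {n : ℕ} {S : LaurentSeries k} (hS : S ≠ 0)
    (ho : S.order = -(n : ℤ)) (i : ℕ) : (S ^ i).order = -((n * i : ℕ) : ℤ) := by
  induction i with
  | zero => simp
  | succ i ih =>
    rw [pow_succ, HahnSeries.order_mul (pow_ne_zero i hS) hS, ih, ho]
    push_cast
    ring

theorem emb_C {k : Type} [Field k] (c : k) (hc : c ≠ 0) :
    algebraMap k (LaurentSeries k) c ≠ 0 ∧ (algebraMap k (LaurentSeries k) c).order = 0 := by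
  rw [LaurentSeries.algebraMap_apply]
  exact ⟨by simpa using hc, HahnSeries.order_C⟩

theorem emb_term {k : Type} [Field k] {n : ℕ} {S : LaurentSeries k} (hS : S ≠ 0)
    (ho : S.order = -(n : ℤ)) (i : ℕ) (a : k) (ha : a ≠ 0) :
    (algebraMap k (LaurentSeries k) a * S ^ i) ≠ 0 ∧
    (algebraMap k (LaurentSeries k) a * S ^ i).order = -((n * i : ℕ) : ℤ) := by
  obtain ⟨h1, h2⟩ := emb_C a ha
  refine ⟨mul_ne_zero h1 (pow_ne_zero i hS), ?_⟩
  rw [HahnSeries.order_mul h1 (pow_ne_zero i hS), h2, emb_pow hS ho]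
  ring

theorem emb_lower {k : Type} [Field k] {n : ℕ} {S : LaurentSeries k} (hS : S ≠ 0)
    (ho : S.order = -(n : ℤ)) (hn : 1 ≤ n) (p : k[X]) (d : ℕ) :
    ((-((n * d : ℕ) : ℤ) : ℤ) : WithTop ℤ) <
      (∑ i ∈ Finset.range d, algebraMap k (LaurentSeries k) (p.coeff i) * S ^ i).orderTop := by
  induction d with
  | zero =>
    simp only [Finset.range_zero, Finset.sum_empty, HahnSeries.orderTop_zero]
    exact WithTop.coe_lt_top _
  | succ d ih =>
    rw [Finset.sum_range_succ]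
    refine lt_of_lt_of_le ?_ HahnSeries.min_orderTop_le_orderTop_add
    rw [lt_min_iff]
    have h1 : (-((n * (d + 1) : ℕ) : ℤ) : ℤ) < (-((n * d : ℕ) : ℤ) : ℤ) := by
      push_cast
      have : (1 : ℤ) ≤ n := by exact_mod_cast hn
      nlinarith
    refine ⟨lt_trans (WithTop.coe_lt_coe.2 h1) ih, ?_⟩
    by_cases hc : p.coeff d = 0
    · rw [hc, map_zero, zero_mul, HahnSeries.orderTop_zero]
      exact WithTop.coe_lt_top _
    · obtain ⟨h2, h3⟩ := emb_term hS ho d _ hc
      rw [← HahnSeries.order_eq_orderTop_of_ne_zero h2, h3]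
      exact WithTop.coe_lt_coe.2 h1

theorem emb_poly {k : Type} [Field k] {n : ℕ} {S : LaurentSeries k} (hS : S ≠ 0)
    (ho : S.order = -(n : ℤ)) (hn : 1 ≤ n) (p : k[X]) (hp : p ≠ 0) :
    aeval S p ≠ 0 ∧ (aeval S p).order = -((n * p.natDegree : ℕ) : ℤ) := by
  have e : aeval S p = algebraMap k (LaurentSeries k) (p.coeff p.natDegree) * S ^ p.natDegree +
      ∑ i ∈ Finset.range p.natDegree, algebraMap k (LaurentSeries k) (p.coeff i) * S ^ i := by
    rw [aeval_def, eval₂_eq_sum_range, Finset.sum_range_succ, add_comm]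
  have hl : p.coeff p.natDegree ≠ 0 := by
    rw [coeff_natDegree]; exact leadingCoeff_ne_zero.2 hp
  obtain ⟨h2, h3⟩ := emb_term hS ho p.natDegree _ hl
  have h4 := emb_lower hS ho hn p p.natDegree
  have h5 : (algebraMap k (LaurentSeries k) (p.coeff p.natDegree) * S ^ p.natDegree).orderTop =
      ((-((n * p.natDegree : ℕ) : ℤ) : ℤ) : WithTop ℤ) := by
    rw [← HahnSeries.order_eq_orderTop_of_ne_zero h2, h3]
  have h6 : (aeval S p).orderTop = ((-((n * p.natDegree : ℕ) : ℤ) : ℤ) : WithTop ℤ) := by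
    rw [e, HahnSeries.orderTop_add_eq_left (by rw [h5]; exact h4), h5]
  have h7 : aeval S p ≠ 0 := by
    intro h
    rw [h, HahnSeries.orderTop_zero] at h6
    exact absurd h6 (WithTop.coe_ne_top).symm
  refine ⟨h7, ?_⟩
  have h8 := HahnSeries.order_eq_orderTop_of_ne_zero h7
  rw [h6] at h8
  exact WithTop.coe_injective h8

/-- EMB: embedding of `k(s)`, `s ↦ S` of order `-n < 0`. -/
theorem emb_thm : S_EMB := by
  intro k _ n S hn hS ho
  have hφ : nonZeroDivisors k[X] ≤
      Submonoid.comap (aeval S : k[X] →ₐ[k] LaurentSeries k) (nonZeroDivisors (LaurentSeries k)) := by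
    intro p hp
    rw [Submonoid.mem_comap]
    exact mem_nonZeroDivisors_of_ne_zero
      (emb_poly hS ho hn p (nonZeroDivisors.ne_zero hp)).1
  refine ⟨RatFunc.liftAlgHom (aeval S) hφ, ?_, ?_⟩
  · rw [RatFunc.liftAlgHom_apply]
    simp
  · intro c hc
    rw [RatFunc.liftAlgHom_apply]
    have hnum : c.num ≠ 0 := RatFunc.num_ne_zero hc
    have hden : c.denom ≠ 0 := c.denom_ne_zero
    obtain ⟨a1, a2⟩ := emb_poly hS ho hn c.num hnum
    obtain ⟨b1, b2⟩ := emb_poly hS ho hn c.denom hden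
    have hq : aeval S c.num / aeval S c.denom ≠ 0 := div_ne_zero a1 b1
    have hm := HahnSeries.order_mul hq b1
    rw [div_mul_cancel₀ _ b1, a2, b2] at hm
    refine ⟨(c.denom.natDegree : ℤ) - c.num.natDegree, ?_⟩
    push_cast at hm
    linarith

end Pool.CND
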