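import Pool.Agent.H37.CND.Stmts

set_option autoImplicit false

namespace Pool.CND

/-- LSP: the place of the field of Laurent series. -/
theorem lsp_thm : S_LSP := by
  intro k _
  refine ⟨⟨fun x => x.order, ?_, ?_, ?_, ?_, ?_⟩, fun x _ => rfl⟩
  · intro x y hx hy
    exact HahnSeries.order_mul hx hy
  · intro x y _ _ hxy
    exact HahnSeries.min_order_le_order_add hxy
  · exact ⟨HahnSeries.single 1 1, HahnSeries.single_ne_zero one_ne_zero,
      HahnSeries.order_single one_ne_zero⟩
  · intro c _
    show (algebraMap k (LaurentSeries k) c).order = 0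
    rw [LaurentSeries.algebraMap_apply]
    exact HahnSeries.order_C
  · intro x hx h0
    refine ⟨x.coeff 0, ?_⟩
    by_cases h : x - algebraMap k (LaurentSeries k) (x.coeff 0) = 0
    · left; exact sub_eq_zero.1 h
    · right
      show 0 < (x - algebraMap k (LaurentSeries k) (x.coeff 0)).order
      by_contra hcon
      have h1 : (x - algebraMap k (LaurentSeries k) (x.coeff 0)).coeff
          ((x - algebraMap k (LaurentSeries k) (x.coeff 0)).order) ≠ 0 := by
        intro h2
        exact h (HahnSeries.coeff_order_eq_zero.1 h2)
      apply h1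
      set z := (x - algebraMap k (LaurentSeries k) (x.coeff 0)).order with hz
      have hz0 : z ≤ 0 := not_lt.1 hcon
      rw [HahnSeries.coeff_sub, LaurentSeries.algebraMap_apply]
      rcases eq_or_lt_of_le hz0 with h3 | h3
      · rw [h3]
        simp
      · have h4 : x.coeff z = 0 := HahnSeries.coeff_eq_zero_of_lt_order (lt_of_lt_of_le h3 h0)
        rw [h4, HahnSeries.C_apply, HahnSeries.coeff_single_of_ne (ne_of_lt h3)]
        simp

end Pool.CND
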